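import Mathlib
import Pool.Agent.K7.H76.SL.Thm

set_option autoImplicit false

namespace Pool.Agent.Results.MP_fc6b1e_nt.DefectBound

open NumberField IsDedekindDomain Pool.Agent.W289.SL Pool.Agent.K7.H76.SL

/-- Let `K` be a number field, `S` a nonempty set of embeddings `K → ℂ_p` which contains with `σ`
all embeddings inducing the same place (for a CM type `S` of a CM field this means that `S` is
`p`-ordinary), such that the completions `ℚ_p(σ K)`, `σ ∈ S`, contain no primitive `p`-th root of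
unity, and `S₀` a set of primes of `K`. Let `V` be the group of the `x ∈ Kˣ` which are `p`-th
powers in the completions `ℚ_p(σ K)`, `σ ∈ S`, and whose valuation is divisible by `p` at every
prime outside `S₀` not induced by `S`. Let `H/K` be Galois of degree a power of `p`.

(1) Assume that `V` has at most `p ^ v` classes modulo `p`-th powers, and that `H/K` is unramified
outside `S₀`, the primes induced by `S` and a finite set `T` of primes. Then for every character
`χ` of `Gal(H/K)` the kernel of `log_{S,p}` on the `χ`-part of `ℂ_p ⊗ 𝓞_H^×` has dimension at most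
`v + #T`.

(2) If all elements of `V` are `p`-th powers and `H/K` is unramified outside `S₀` and the primes
induced by `S`, then the same holds for `V` of `H` (with the embeddings above `S` and the primes
above `S₀`), and `log_{S,p}` is injective on the `χ`-part for every `χ`. -/
theorem result (p : ℕ) [Fact p.Prime] (K : Type) [Field K] [NumberField K]
    (S : Set (K →+* ℂ_[p])) (hne : S.Nonempty) (hS : PlaceStable S) (hNT : ∀ σ ∈ S, NoTor σ)
    (S₀ : Set (HeightOneSpectrum (𝓞 K)))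
    (H : Type) [Field H] [NumberField H] [Algebra K H] [IsGalois K H]
    (hH : ∃ n : ℕ, Module.finrank K H = p ^ n) :
    (∀ v : ℕ, VBound S S₀ v → ∀ T : Finset (HeightOneSpectrum (𝓞 K)),
      (∀ w : HeightOneSpectrum (𝓞 K), w ∉ S₀ → w ∉ T → (∀ σ ∈ S, ¬ Induced w σ) → Unr H w) →
      ∀ χ : (H ≃ₐ[K] H) →* ℂ_[p]ˣ, DefectLE p K H S χ (v + T.card)) ∧
    (VTriv S S₀ →
      (∀ w : HeightOneSpectrum (𝓞 K), w ∉ S₀ → (∀ σ ∈ S, ¬ Induced w σ) → Unr H w) →
      VTriv (upS H S) (up0 H S₀) ∧ ∀ χ : (H ≃ₐ[K] H) →* ℂ_[p]ˣ, SigmaLeopoldt p K H S χ) := by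
  have hG : ∃ n : ℕ, Nat.card (H ≃ₐ[K] H) = p ^ n := by
    obtain ⟨n, hn⟩ := hH
    exact ⟨n, by rw [IsGalois.card_aut_eq_finrank, hn]⟩
  have h1 : ∀ v : ℕ, VBound S S₀ v → ∀ T : Finset (HeightOneSpectrum (𝓞 K)),
      (∀ w : HeightOneSpectrum (𝓞 K), w ∉ S₀ → w ∉ T → (∀ σ ∈ S, ¬ Induced w σ) → Unr H w) →
      ∀ χ : (H ≃ₐ[K] H) →* ℂ_[p]ˣ, DefectLE p K H S χ (v + T.card) := by
    intro v hV T hT χ L hL x hx1 hx2
    refine defect_bound hG hS hne hNT ?_ (v + T.card) (bound_add hV T) χ L hL x hx1 hx2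
    intro w hw hw'
    exact hT w (fun h => hw (Or.inl h)) (fun h => hw (Or.inr h)) hw'
  refine ⟨h1, fun hV hU => ⟨?_, fun χ => ?_⟩⟩
  · obtain ⟨σ, hσ⟩ := hne
    obtain ⟨τ, hτ⟩ := exists_ext (H := H) σ
    refine going_up_triv hG ⟨τ, ?_⟩ hNT (fun σ _ => exists_ext σ) hU hV
    change τ.comp (algebraMap K H) ∈ S
    rw [hτ]
    exact hσ
  · exact leo_of_defect (h1 0 hV.bound ∅ (fun w hw _ hw' => hU w hw hw') χ)

end Pool.Agent.Results.MP_fc6b1e_nt.DefectBound
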