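import Mathlib
import Pool.Agent.K7.H76.SL.Ex

set_option autoImplicit false

namespace Pool.Agent.Results.MP_fc6b1e_nt.InertFamilies

open NumberField IsDedekindDomain Pool.Agent.W289.SL Pool.Agent.K7.H76.SL

/-- Let `p` be an odd prime and `k` an imaginary quadratic field of class number prime to `p` in
which `p` splits, `v ≠ v'` the primes above `p`.

(1) Let `q ≠ v` be a prime of `k` with `q ^ h = (α)`, `p ∤ h` and `α ^ (p - 1) ≢ 1` modulo `v ^ 2`,
let `φ : k → ℂ_p` induce `v`, and let `K/k` be Galois of degree a power of `p`, unramified outside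
`v` and `q`. Then the set `Σ` of the embeddings of `K` above `φ` contains with an embedding all
embeddings inducing the same place, it is a CM type if `K` is a CM field, and for every Galois
extension `H/K` of degree a power of `p`, every finite set `T` of primes of `K` such that `H/K` is
unramified outside the primes above `q`, the primes induced by `Σ` and `T`, and every character `χ`
of `Gal(H/K)`, the kernel of `log_{Σ,p}` on the `χ`-part of `ℂ_p ⊗ 𝓞_H^×` has dimension at most
`#T`; it is zero if `T` is empty.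

(2) There are infinitely many primes `l` for which there is a totally real field `F`, cyclic of
degree `p` over `ℚ` and ramified exactly at `l`, and a CM field `K` containing `k` with
`[K : F] = 2`, such that for both embeddings `φ` of `k` the set `Σ` is a `p`-ordinary CM type with
the same property, with the primes above `l` in place of the primes above `q`. -/
theorem result (p : ℕ) [Fact p.Prime] (hp2 : p ≠ 2) (k : Type) [Field k] [NumberField k]
    [IsTotallyComplex k] (h2 : Module.finrank ℚ k = 2) (v v' : HeightOneSpectrum (𝓞 k))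
    (hne : v ≠ v') (hv : (p : 𝓞 k) ∈ v.asIdeal) (hv' : (p : 𝓞 k) ∈ v'.asIdeal)
    (hcl : ¬ p ∣ Nat.card (ClassGroup (𝓞 k))) :
    (∀ q : HeightOneSpectrum (𝓞 k), q ≠ v →
      ∀ (α : 𝓞 k) (h : ℕ), ¬ p ∣ h → Ideal.span {α} = q.asIdeal ^ h →
      α ^ (p - 1) - 1 ∉ v.asIdeal ^ 2 → ∀ φ : k →+* ℂ_[p], Induced v φ →
      ∀ (K : Type) [Field K] [NumberField K] [Algebra k K] [IsGalois k K],
      (∃ n : ℕ, Module.finrank k K = p ^ n) →
      (∀ w : HeightOneSpectrum (𝓞 k), w ≠ v → w ≠ q → Unr K w) →
      PlaceStable (upS K {φ}) ∧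
      (∀ (F : Type) [Field F] [NumberField F] [Algebra F K] [IsTotallyReal F],
        Module.finrank F K = 2 → IsCMType p F K (upS K {φ})) ∧
      Bounded p K (upS K {φ}) {w | Above q w}) ∧
    (∀ B : ℕ, ∃ l : ℕ, B < l ∧ l.Prime ∧
      ∃ (K : Type) (_ : Field K) (_ : NumberField K) (_ : Algebra k K)
        (F : IntermediateField ℚ K), CMData p K F 1 ∧
        (∀ r : ℕ, r.Prime → ((r : ℤ) ∣ discr F ↔ r = l)) ∧
        ∀ φ : k →+* ℂ_[p], IsCMType p F K (upS K {φ}) ∧ PlaceStable (upS K {φ}) ∧
          Bounded p K (upS K {φ}) {w | (l : 𝓞 K) ∈ w.asIdeal}) := by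
  refine ⟨?_, fun B => inert_family hp2 h2 hne hv hv' hcl B⟩
  intro q hqv α h hh hα hα2 φ hφ K _ _ _ _ hK hU
  obtain ⟨h1, h3⟩ := general hp2 h2 hne hv hv' hcl hqv hh hα hα2 hφ K hK hU
  exact ⟨h1, fun F _ _ _ _ hF => cm_type h2 φ F K hF, h3⟩

end Pool.Agent.Results.MP_fc6b1e_nt.InertFamilies
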