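import Mathlib
import Pool.Agent.K7.H76.SL.Ex

set_option autoImplicit false

namespace Pool.Agent.Results.MP_fc6b1e_nt.QuadraticTowers

open NumberField IsDedekindDomain Pool.Agent.W289.SL Pool.Agent.K7.H76.SL

/-- Let `p` be an odd prime. There is an imaginary quadratic field `k` with an integer `π` such
that `π ^ 2 - π + p = 0` (that is `k = ℚ(√(1 - 4p))`). For every such `k` and every `n` there is a
totally real field `F`, Galois of degree `p ^ n` over `ℚ` and unramified outside `p`, and a CM field
`K` containing `k` with `[K : F] = 2` (so `K = F k`), such that for both embeddings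
`φ : k → ℂ_p` the set `Σ` of the embeddings of `K` above `φ` is a `p`-ordinary CM type and: for every
Galois extension `H/K` of degree a power of `p`, every finite set `T` of primes of `K` such that
`H/K` is unramified outside `p` and `T`, and every character `χ` of `Gal(H/K)`, the kernel of
`log_{Σ,p}` on the `χ`-part of `ℂ_p ⊗ 𝓞_H^×` has dimension at most `#T`; in particular the
`Σ`-Leopoldt conjecture holds for all `χ` if `H/K` is unramified outside `p`. -/
theorem result (p : ℕ) [Fact p.Prime] (hp2 : p ≠ 2) :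
    (∃ (k : Type) (_ : Field k) (_ : NumberField k), IsTotallyComplex k ∧
      Module.finrank ℚ k = 2 ∧ ∃ π : 𝓞 k, π ^ 2 - π + (p : 𝓞 k) = 0) ∧
    ∀ (k : Type) [Field k] [NumberField k] [IsTotallyComplex k], Module.finrank ℚ k = 2 →
      ∀ π : 𝓞 k, π ^ 2 - π + (p : 𝓞 k) = 0 → ∀ n : ℕ,
      ∃ (K : Type) (_ : Field K) (_ : NumberField K) (_ : Algebra k K)
        (F : IntermediateField ℚ K), CMData p K F n ∧
        (∀ r : ℕ, r.Prime → (r : ℤ) ∣ discr F → r = p) ∧
        ∀ φ : k →+* ℂ_[p], IsCMType p F K (upS K {φ}) ∧ PlaceStable (upS K {φ}) ∧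
          Bounded p K (upS K {φ}) {w | (p : 𝓞 K) ∈ w.asIdeal} := by
  refine ⟨exists_k p Fact.out, ?_⟩
  intro k _ _ _ h2 π hπ n
  exact tower hp2 h2 π hπ n

end Pool.Agent.Results.MP_fc6b1e_nt.QuadraticTowers
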