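import Mathlib
import Pool.Agent.K7.H76.LC.Fin2

/-!
# The `Σ`-Leopoldt conjecture for composites with abelian extensions of the imaginary quadratic field

Let `p` be an odd prime which splits in the imaginary quadratic field `k`, `F` a totally real number
field of degree prime to `p` in which `p` is unramified and which satisfies Leopoldt's conjecture at
`p`, and `K = k F`. For an embedding `φ : k → ℂ_p` let `Σ` be the set of the embeddings of `K` which
extend `φ`: a `p`-ordinary CM type. We consider the characters of `Gal(K L / K)` for the extensions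
`L / k` which are abelian of exponent `p`; they are characters of order `p` of `K` which need not come
from `ℚ`, and `K L / k` is not abelian if `F` is not.

Proof. The theorem of Baker and Brumer gives the statement for `L / k`. The units of `K L` whose norm
to `L` is trivial and which are congruent to one at the places of `Σ` modulo a high power of `p`, but
are not `p`-th powers, are controlled by the divisors of the elements of `K` which they become `p`-th
powers of (`core'`, after MP_5f2860_nt.CompositesWithAbelianFields, where `k = ℚ`): if too many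
subextensions `L` of `F₀` have such units, then there are too many independent relations between
the finitely many invariants in `K`. For (3) we construct extensions of `k` by descent from Kummer
extensions of `k(ζ_p)` (`Kum1` to `Kum7`), ramified at primes of degree one which are found by
Chebotarev's theorem (`Chb`).
-/

set_option autoImplicit false

namespace Pool.Agent.Results.MP_fc6b1e_nt.SigmaComposites

open NumberField IsDedekindDomain Module Pool.Agent.H637R2.Leo
open Pool.Agent.W289.SL Pool.Agent.K7.H76.SL Pool.Agent.K7.H76.LC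
open Pool.Agent.Y18.LC (Unram)

/-- Let `p` be an odd prime, `k` an imaginary quadratic field in which `p` splits, `v ≠ v'` the primes
above `p`, and `Ω` an algebraic closure of `k`.

Let `F` be a totally real number field of degree prime to `p`, in which `p` is unramified, which
satisfies Leopoldt's conjecture at `p`, and `K ⊆ Ω` a quadratic extension of `F` which contains `k`.
For `φ : k → ℂ_p` the set `Σ = upS K {φ}` of the embeddings of `K` above `φ` is a `p`-ordinary CM
type. `SigmaAll φ K L` is the `Σ`-Leopoldt statement for all characters of `Gal(K L / K)`.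

(1) If `φ` induces `v`, there is a number `W` such that for every extension `F₀ / k` of degree `p ^ m`,
abelian of exponent `p`, unramified at `v`, such that each prime of `k` which is ramified in `F₀`
has only one prime of `K` above it, at least `(p ^ (m - W) - 1) / (p - 1)` of the subfields `L` of
degree `p` of `F₀ / k` have the property `SigmaAll φ K L`.

(2) Every infinite extension `A / k` of this type contains an infinite extension `M / k` such that all
finite extensions `L ⊆ M` of `k` have the property.

(3) If the degree of `F` is odd and some automorphism of the algebraic closure of `ℚ` permutes the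
embeddings of `F` in one cycle, then there is an infinite extension `M / k`, abelian of exponent `p`,
which contains no Galois extension of `ℚ` of degree `p`, and such that all finite extensions `L ⊆ M`
of `k` have the property for both embeddings `φ` of `k`.

(4) For every prime `n ≥ 3` different from `p` there are infinitely many totally real fields `F` of
degree `n`, not Galois over `ℚ`, with `K` and `M` as in (3). -/
theorem result (p : ℕ) [Fact p.Prime] (hp2 : p ≠ 2) (k : Type) [Field k] [NumberField k]
    [IsTotallyComplex k] (h2 : finrank ℚ k = 2) (v v' : HeightOneSpectrum (𝓞 k)) (hne : v ≠ v')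
    (hv : (p : 𝓞 k) ∈ v.asIdeal) (hv' : (p : 𝓞 k) ∈ v'.asIdeal) (Ω : Type) [Field Ω]
    [Algebra k Ω] [IsAlgClosure k Ω] :
    (∀ (F : Type) [Field F] [NumberField F] [IsTotallyReal F] (K : IntermediateField k Ω)
      [NumberField K] [Algebra F K], finrank F K = 2 → ¬ p ∣ finrank ℚ F → Unram F p →
      Leopoldt F p →
      (∀ φ : k →+* ℂ_[p], IsCMType p F K (upS K {φ}) ∧ PlaceStable (upS K {φ})) ∧
      (∀ φ : k →+* ℂ_[p], Induced v φ →
        (∃ W : ℕ, ∀ (m : ℕ) (F₀ : IntermediateField k Ω), EAk p k F₀ → finrank k F₀ = p ^ m →
          UnrF F₀ v → (∀ 𝔮 : HeightOneSpectrum (𝓞 k), UnrF F₀ 𝔮 ∨ NonSk K 𝔮) →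
          p ^ (m - W) ≤ 1 + (p - 1) * Nat.card {L : IntermediateField k Ω // L ≤ F₀ ∧
            finrank k L = p ∧ SigmaAll φ K L}) ∧
        (∀ A : IntermediateField k Ω, EAk p k A → ¬ FiniteDimensional k A →
          (∀ L : IntermediateField k Ω, L ≤ A → FiniteDimensional k L → UnrF L v) →
          (∀ 𝔮 : HeightOneSpectrum (𝓞 k), (∀ L : IntermediateField k Ω, L ≤ A →
            FiniteDimensional k L → UnrF L 𝔮) ∨ NonSk K 𝔮) →
          ∃ M : IntermediateField k Ω, M ≤ A ∧ ¬ FiniteDimensional k M ∧
            ∀ L : IntermediateField k Ω, L ≤ M → FiniteDimensional k L → SigmaAll φ K L)) ∧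
      (Odd (finrank ℚ F) → Cyc F →
        ∃ M : IntermediateField k Ω, EAk p k M ∧ ¬ FiniteDimensional k M ∧ NoCyclic p M ∧
          ∀ L : IntermediateField k Ω, L ≤ M → FiniteDimensional k L →
            ∀ φ : k →+* ℂ_[p], SigmaAll φ K L)) ∧
    (∀ n : ℕ, n.Prime → 3 ≤ n → p ≠ n →
      ∀ (ι : Type) [Fintype ι] (E : ι → Type) [∀ i, Field (E i)] [∀ i, NumberField (E i)],
        ∃ (F : Type) (_ : Field F) (_ : NumberField F) (K : IntermediateField k Ω)
          (_ : NumberField K) (_ : Algebra F K) (M : IntermediateField k Ω),
          IsTotallyReal F ∧ finrank ℚ F = n ∧ ¬ IsGalois ℚ F ∧ (∀ i, IsEmpty (F ≃+* E i)) ∧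
          finrank F K = 2 ∧
          (∀ φ : k →+* ℂ_[p], IsCMType p F K (upS K {φ}) ∧ PlaceStable (upS K {φ})) ∧
          EAk p k M ∧ ¬ FiniteDimensional k M ∧ NoCyclic p M ∧
          ∀ L : IntermediateField k Ω, L ≤ M → FiniteDimensional k L →
            ∀ φ : k →+* ℂ_[p], SigmaAll φ K L) := by
  have : IsAlgClosed Ω := IsAlgClosure.isAlgClosed k
  have : Algebra.IsAlgebraic k Ω := IsAlgClosure.isAlgebraic
  refine ⟨?_, ?_⟩
  · intro F _ _ _ K _ _ hFK hpF hun hLeo
    refine ⟨fun φ => ⟨cm_type h2 φ F K hFK, upS_stable (placeStable_single h2 hne hv hv' φ)⟩,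
      fun φ hφ => ⟨final1 hp2 h2 hne hv hv' hφ hFK hpF hun hLeo, ?_⟩, fun hodd hc =>
        final3 hp2 h2 hne hv hv' hFK hpF hun hLeo hodd hc⟩
    intro A hA hAinf hAv hAr
    exact final2 hp2 h2 hne hv hv' hφ hFK hpF hun hLeo A hA hAinf hAv hAr
  · intro n hn hn3 hpn ι _ E _ _
    obtain ⟨F, i1, i2, hdeg, hreal, hng, hE, hun, hLeo⟩ := Pool.Agent.Y349.LC.fam n p hn hn3 hpn ι E
    obtain ⟨K, i3, i4, hFK⟩ := exists_K (Ω := Ω) h2 F
    have hpF : ¬ p ∣ finrank ℚ F := by
      rw [hdeg]
      intro h
      exact hpn ((Nat.prime_dvd_prime_iff_eq Fact.out hn).1 h)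
    have hodd : Odd (finrank ℚ F) := by
      rw [hdeg]
      exact hn.odd_of_ne_two (by omega)
    have hc : Cyc F := Pool.Agent.Y419.LC.prd F (by rw [hdeg]; exact hn)
    obtain ⟨M, h1, h3, h4, h5⟩ := final3 hp2 h2 hne hv hv' hFK hpF hun hLeo hodd hc
    exact ⟨F, i1, i2, K, i3, i4, M, hreal, hdeg, hng, hE, hFK,
      fun φ => ⟨cm_type h2 φ F K hFK, upS_stable (placeStable_single h2 hne hv hv' φ)⟩,
      h1, h3, h4, h5⟩

end Pool.Agent.Results.MP_fc6b1e_nt.SigmaComposites
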